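import Mathlib
import Pool.Agent.Helper679_PU.Ram10

/-!
MP_7f0c28_lc: `Σ¹_{2N}` sets are completely Ramsey, from uniformization for `Π¹_{2N-1}`, the Baire
property for `Σ¹_{2N}`, and measurable separation for `Σ¹_{2N+1}`. All three hypotheses follow at
once from the hypotheses of the question for `N`.

Definitions used in the statement, all in `Pool/Agent/Helper679_PU/Defs.lean`:
`BS` is the Baire space, `CS` is the Cantor space,
`LSig n` is the lightface class `Σ¹ₙ` of subsets of the Baire space (`LSig 0` is `Σ⁰₁`),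
`Sig n` is the boldface class `Σ¹ₙ` (`Sig 0` are the open sets),
`LPiUnif k` says that lightface `Π¹ₖ` has the uniformization property,
`bm` is the product measure on the Baire space giving mass `2^{-(n+1)}` to `n`.
Elements of `CS` are identified with the sets of natural numbers of which they are the
characteristic functions.
-/

namespace Pool.Agent.Results.MP_7f0c28_lc.Ramsey

open Set MeasureTheory
open Pool.Agent.Helper679_PU

/-- Let `N ≥ 1`. Assume that lightface `Π¹_{2N-1}` has the uniformization property, that any two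
disjoint boldface `Σ¹_{2N+1}` sets can be separated by a Lebesgue measurable set, and that all
boldface `Σ¹_{2N}` sets have the Baire property. Then every boldface `Σ¹_{2N}` set `A` of sets of
natural numbers is completely Ramsey: for each `n`, each `s ⊆ n` (given by a real `s` of which only
the first `n` values matter) and each infinite `X` there is an infinite `Y ⊆ X` such that either all
or none of the infinite `x` with `x ∩ n = s` and `x \ n ⊆ Y` belong to `A`. -/
theorem result (N : ℕ) (hN : 1 ≤ N) (hU : LPiUnif (2 * N - 1))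
    (hLM : ∀ A A' : Set BS, Sig (2 * N + 1) BS A → Sig (2 * N + 1) BS A' → Disjoint A A' →
      ∃ M : Set BS, NullMeasurableSet M bm ∧ A ⊆ M ∧ Disjoint M A')
    (hBP : ∀ A : Set BS, Sig (2 * N) BS A → ∃ U : Set BS, IsOpen U ∧ IsMeagre (symmDiff A U))
    (A : Set CS) (hA : Sig (2 * N) CS A) (n : ℕ) (s X : CS) (hX : {j | X j = true}.Infinite) :
    ∃ Y : CS, {j | Y j = true}.Infinite ∧ (∀ j, Y j = true → X j = true) ∧
      ((∀ x : CS, {j | x j = true}.Infinite → (∀ j < n, x j = s j) →
          (∀ j ≥ n, x j = true → Y j = true) → x ∈ A) ∨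
        (∀ x : CS, {j | x j = true}.Infinite → (∀ j < n, x j = s j) →
          (∀ j ≥ n, x j = true → Y j = true) → x ∉ A)) := by
  obtain ⟨k, rfl⟩ : ∃ k, N = k + 1 := ⟨N - 1, by omega⟩
  have e1 : 2 * (k + 1) - 1 = 2 * k + 1 := by omega
  have e2 : 2 * (k + 1) + 1 = (2 * k + 1) + 2 := by omega
  have e3 : 2 * (k + 1) = (2 * k + 1) + 1 := by omega
  rw [e1] at hU
  rw [e2] at hLM
  rw [e3] at hA hBP
  have S : Setup (2 * k + 1) := ⟨hU.bold, hLM⟩
  have C : CSetup (2 * k + 1) := ⟨hU.bold, fun A h1 => baire_of_symmDiff (hBP A h1)⟩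
  have hinf : ∀ x : CS, {j | x j = true}.Infinite ↔ Infi x := by
    intro x
    constructor
    · intro h m
      obtain ⟨j, hj1, hj2⟩ := h.exists_gt m
      exact ⟨j, hj2.le, hj1⟩
    · intro h
      rw [Set.infinite_iff_exists_gt]
      intro m
      obtain ⟨j, hj1, hj2⟩ := h (m + 1)
      exact ⟨j, hj2, by omega⟩
  obtain ⟨Y, hY, hYX, h⟩ := sg_cram (by omega) S C (A := fun x => x ∈ A) hA (ini s n) X
    ((hinf X).1 hX)
  rw [ini_length] at hYX
  have hY' : Infi fun j => decide (n ≤ j) && Y j := by
    intro m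
    obtain ⟨j, hj1, hj2⟩ := hY (max m n)
    refine ⟨j, (le_max_left _ _).trans hj1, ?_⟩
    simp only [hj2, Bool.and_true, decide_eq_true_eq]
    exact (le_max_right _ _).trans hj1
  have hb : ∀ x : CS, {j | x j = true}.Infinite → (∀ j < n, x j = s j) →
      (∀ j ≥ n, x j = true → (decide (n ≤ j) && Y j) = true) → x ∈ Bx (ini s n, Y) := by
    intro x h1 h2 h3
    refine ⟨(hinf x).1 h1, fun j hj => ?_, fun j hj hxj => ?_⟩
    · simp only [ini_length] at hj
      rw [h2 j hj, bit_ini hj]
    · simp only [ini_length] at hj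
      have := h3 j hj hxj
      rw [Bool.and_eq_true] at this
      exact this.2
  refine ⟨fun j => decide (n ≤ j) && Y j, (hinf _).2 hY', fun j hj => ?_, ?_⟩
  · rw [Bool.and_eq_true, decide_eq_true_eq] at hj
    exact hYX j hj.1 hj.2
  · rcases h with h | h
    · exact Or.inl fun x h1 h2 h3 => h x (hb x h1 h2 h3)
    · exact Or.inr fun x h1 h2 h3 => h x (hb x h1 h2 h3)

end Pool.Agent.Results.MP_7f0c28_lc.Ramsey
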