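import Mathlib
import Pool.Agent.Helper679_PU.Mad2

/-!
MP_7f0c28_lc: there are no infinite maximal almost disjoint families in `Σ¹_{2N}`, from
uniformization for `Π¹_{2N-1}`, the Baire property for `Σ¹_{2N}`, and measurable separation for
`Σ¹_{2N+1}`. All three hypotheses follow at once from the hypotheses of the question for `N`.

Proof: by the earlier result `Ramsey` the sets in question are completely Ramsey. Selecting one point
for each pair of successive elements of `x`, from the members of a countable infinite subfamily,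
gives sets such that the member of the family almost containing the selected points, if there is
one, is unchanged if an even number of elements of `x` is omitted. So it is constant on the subsets of
an infinite set (a variant of the argument of Schrittesser and Törnquist), which is impossible.

Definitions used in the statement, all in `Pool/Agent/Helper679_PU/Defs.lean`:
`BS` is the Baire space, `CS` is the Cantor space,
`LSig n` is the lightface class `Σ¹ₙ` of subsets of the Baire space (`LSig 0` is `Σ⁰₁`),
`Sig n` is the boldface class `Σ¹ₙ` (`Sig 0` are the open sets),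
`LPiUnif k` says that lightface `Π¹ₖ` has the uniformization property,
`bm` is the product measure on the Baire space giving mass `2^{-(n+1)}` to `n`.
Elements of `CS` are identified with the sets of natural numbers of which they are the
characteristic functions.
-/

namespace Pool.Agent.Results.MP_7f0c28_lc.AlmostDisjoint

open Set MeasureTheory
open Pool.Agent.Helper679_PU

/-- the set of natural numbers with characteristic function `x` -/
def El (x : CS) : Set ℕ := {j | x j = true}

/-- `A` is an almost disjoint family of infinite sets of natural numbers -/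
def AlmostDisjointFamily (A : Set CS) : Prop :=
  (∀ y ∈ A, (El y).Infinite) ∧ ∀ y ∈ A, ∀ y' ∈ A, y ≠ y' → (El y ∩ El y').Finite

theorem key {A : Set CS} {k : ℕ} (hA : Sig (k + 1) CS A) (hM : MadFam A) (hinf : A.Infinite)
    (hR : ∀ D : Set CS, Sig (k + 1) CS D → ∀ X : CS, (El X).Infinite → ∃ Y : CS, (El Y).Infinite ∧
      El Y ⊆ El X ∧ ((∀ x : CS, (El x).Infinite → El x ⊆ El Y → x ∈ D) ∨
        (∀ x : CS, (El x).Infinite → El x ⊆ El Y → x ∉ D))) : False := by
  set a : ℕ → CS := fun m => (hinf.natEmbedding A m : CS) with ha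
  have ha1 : ∀ m, a m ∈ A := fun m => (hinf.natEmbedding A m).2
  have ha2 : Function.Injective a := fun m n h => (hinf.natEmbedding A).injective (Subtype.ext h)
  have h1 := fun m k => pick hM ha1 ha2 m k
  choose h hh1 hh2 hh3 using h1
  exact no_mad ⟨hM, ha1, ha2, hh1, hh2⟩ fun B hB X hX => hR _ (sig_DM hA hB) X hX

/-- Let `N ≥ 1`. Assume that lightface `Π¹_{2N-1}` has the uniformization property, that any two
disjoint boldface `Σ¹_{2N+1}` sets can be separated by a Lebesgue measurable set, and that all
boldface `Σ¹_{2N}` sets have the Baire property. Let `A` be an almost disjoint family of infinite sets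
of natural numbers which is boldface `Σ¹_{2N}`. Then every infinite set `X` of natural numbers is
covered by finitely many members of `A` up to finitely many elements, or it has an infinite subset
which is almost disjoint from all members of `A`. So `A` is not maximal if it is infinite. -/
theorem result (N : ℕ) (hN : 1 ≤ N) (hU : LPiUnif (2 * N - 1))
    (hLM : ∀ A A' : Set BS, Sig (2 * N + 1) BS A → Sig (2 * N + 1) BS A' → Disjoint A A' →
      ∃ M : Set BS, NullMeasurableSet M bm ∧ A ⊆ M ∧ Disjoint M A')
    (hBP : ∀ A : Set BS, Sig (2 * N) BS A → ∃ U : Set BS, IsOpen U ∧ IsMeagre (symmDiff A U))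
    (A : Set CS) (hA : Sig (2 * N) CS A) (had : AlmostDisjointFamily A) :
    (∀ X : CS, (El X).Infinite →
      (∃ F : Set CS, F.Finite ∧ F ⊆ A ∧ (El X \ ⋃ y ∈ F, El y).Finite) ∨
      ∃ x : CS, (El x).Infinite ∧ El x ⊆ El X ∧ ∀ y ∈ A, (El x ∩ El y).Finite) ∧
    (A.Infinite → ∃ x : CS, (El x).Infinite ∧ ∀ y ∈ A, (El x ∩ El y).Finite) := by
  classical
  obtain ⟨k, hk⟩ : ∃ k, 2 * N = k + 1 := ⟨2 * N - 1, by omega⟩
  have hR : ∀ D : Set CS, Sig (k + 1) CS D → ∀ X : CS, (El X).Infinite → ∃ Y : CS,
      (El Y).Infinite ∧
      El Y ⊆ El X ∧ ((∀ x : CS, (El x).Infinite → El x ⊆ El Y → x ∈ D) ∨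
        (∀ x : CS, (El x).Infinite → El x ⊆ El Y → x ∉ D)) := by
    intro D hD X hX
    rw [← hk] at hD
    obtain ⟨Y, h1, h2, h3⟩ := Pool.Agent.Results.MP_7f0c28_lc.Ramsey.result N hN hU hLM hBP D hD 0
      X X hX
    refine ⟨Y, h1, fun j hj => h2 j hj, ?_⟩
    rcases h3 with h3 | h3
    · exact Or.inl fun x hx hxY => h3 x hx (fun j hj => absurd hj (by omega))
        (fun j _ hj => hxY hj)
    · exact Or.inr fun x hx hxY => h3 x hx (fun j hj => absurd hj (by omega))
        (fun j _ hj => hxY hj)
  have hA' : Sig (k + 1) CS A := by rwa [← hk]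
  have main : ∀ X : CS, (El X).Infinite →
      (∃ F : Set CS, F.Finite ∧ F ⊆ A ∧ (El X \ ⋃ y ∈ F, El y).Finite) ∨
      ∃ x : CS, (El x).Infinite ∧ El x ⊆ El X ∧ ∀ y ∈ A, (El x ∩ El y).Finite := by
    intro X hX
    by_contra hcon
    push Not at hcon
    obtain ⟨hc1, hc2⟩ := hcon
    have hpm : StrictMono (en X) := en_mono hX
    have hpr : range (en X) = El X := range_en hX
    -- the trace on `X`
    set A' : Set CS := {z | (st z).Infinite ∧ ∃ y, y ∈ A ∧ z = fun n => y (en X n)} with hA'd
    have hsig : Sig (k + 1) CS A' := by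
      have h1 : Sg k CS fun z : CS => (st z).Infinite := (Dl.of_meas meas_inf).1
      have h2 : Sg k (CS × CS) fun q => q.2 ∈ A := Sg.comp (P := fun y => y ∈ A) continuous_snd hA'
      have h3 : Sg k (CS × CS) fun q => q.1 = fun n => q.2 (en X n) := by
        refine (Dl.of_meas (P := fun q : CS × CS => q.1 = fun n => q.2 (en X n)) ?_).1
        have hc : Continuous fun q : CS × CS => (fun n => q.2 (en X n) : CS) := by fun_prop
        exact (isClosed_eq continuous_fst hc).measurableSet
      exact h1.and (Sg.exP (P := fun z y => y ∈ A ∧ z = fun n => y (en X n)) (h2.and h3))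
    have hpre : ∀ y y' : CS, (El y ∩ El y').Finite →
        (st (fun n => y (en X n)) ∩ st (fun n => y' (en X n))).Finite := by
      intro y y' hf
      refine (hf.preimage (f := en X) hpm.injective.injOn).subset ?_
      rintro n ⟨h1, h2⟩
      exact ⟨h1, h2⟩
    have hmad : MadFam A' := by
      refine ⟨fun y hy => hy.1, ?_, ?_⟩
      · rintro _ ⟨-, y, hy, rfl⟩ _ ⟨-, y', hy', rfl⟩ hne
        refine hpre y y' (had.2 y hy y' hy' ?_)
        rintro rfl
        exact hne rfl
      · intro w hw
        set w' : CS := rg (fun n => en X (en w n)) with hw'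
        have hm : StrictMono fun n => en X (en w n) := hpm.comp (en_mono hw)
        have h1 : El w' = range fun n => en X (en w n) := st_rg _
        have h2 : (El w').Infinite := rg_inf hm
        have h3 : El w' ⊆ El X := by
          rw [h1, ← hpr]
          rintro _ ⟨n, rfl⟩
          exact ⟨_, rfl⟩
        obtain ⟨y, hy, hyi⟩ := hc2 w' h2 h3
        have h4 : (st w ∩ st (fun n => y (en X n))).Infinite := by
          intro hf
          refine hyi ((hf.image (en X)).subset ?_)
          rintro j ⟨hj1, hj2⟩
          rw [h1] at hj1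
          obtain ⟨n, rfl⟩ := hj1
          exact ⟨en w n, ⟨en_mem hw n, hj2⟩, rfl⟩
        exact ⟨_, ⟨h4.mono inter_subset_right, y, hy, rfl⟩, h4⟩
    by_cases hfin : A'.Finite
    · -- finitely many traces
      have h1 : ∀ z ∈ A', ∃ y ∈ A, z = fun n => y (en X n) := fun z hz => hz.2
      choose! f hf1 hf2 using h1
      refine hc1 (f '' A') (hfin.image f) (by rintro _ ⟨z, hz, rfl⟩; exact hf1 z hz) ?_
      by_contra hinf
      have hinf' : (El X \ ⋃ y ∈ f '' A', El y).Infinite := hinf
      set w : CS := fun n => decide (en X n ∉ ⋃ y ∈ f '' A', El y) with hw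
      have hwi : (st w).Infinite := by
        intro hfw
        refine hinf' ((hfw.image (en X)).subset ?_)
        rintro j ⟨hj1, hj2⟩
        rw [← hpr] at hj1
        obtain ⟨n, rfl⟩ := hj1
        exact ⟨n, by simpa [st, hw] using hj2, rfl⟩
      obtain ⟨z, hz, hzi⟩ := hmad.max w hwi
      obtain ⟨n, hn1, hn2⟩ := hzi.nonempty
      have h3 : en X n ∉ ⋃ y ∈ f '' A', El y := by
        have : w n = true := hn1
        rwa [hw, decide_eq_true_eq] at this
      apply h3
      refine Set.mem_biUnion ⟨z, hz, rfl⟩ ?_
      have h4 : z n = true := hn2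
      rw [hf2 z hz] at h4
      exact h4
    · exact key hsig hmad hfin hR
  refine ⟨main, fun hAi => ?_⟩
  have hall : El (fun _ => true) = univ := by ext; simp [El]
  rcases main (fun _ => true) (by rw [hall]; exact infinite_univ) with ⟨F, hF, hFA, hfin⟩ | h
  · exfalso
    obtain ⟨y, hy, hyF⟩ : ∃ y ∈ A, y ∉ F := by
      by_contra hcon
      push Not at hcon
      exact hAi (hF.subset hcon)
    have h1 : (El y ∩ ⋃ y' ∈ F, El y').Finite := by
      rw [Set.inter_iUnion₂]
      refine hF.biUnion fun y' hy' => had.2 y hy y' (hFA hy') ?_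
      rintro rfl
      exact hyF hy'
    refine had.1 y hy ((h1.union hfin).subset ?_)
    intro j hj
    by_cases h2 : j ∈ ⋃ y' ∈ F, El y'
    · exact Or.inl ⟨hj, h2⟩
    · refine Or.inr ⟨?_, h2⟩
      rw [hall]
      trivial
  · obtain ⟨x, h1, -, h2⟩ := h
    exact ⟨x, h1, h2⟩

end Pool.Agent.Results.MP_7f0c28_lc.AlmostDisjoint
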