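import Mathlib
import Pool.Agent.Helper679_PU.Cover

/-!
MP_7f0c28_lc: a covering dichotomy by closed sets, of Solecki type, for `Σ¹_{2N}` sets, from
uniformization for `Π¹_{2N-1}`, the Baire property for `Σ¹_{2N}`, and measurable separation for
`Σ¹_{2N+1}`. All three hypotheses follow at once from the hypotheses of the question for `N`. The
conclusion contains the perfect set property and the `K_σ` regularity of `Σ¹_{2N}` sets.

Definitions used in the statement, all in `Pool/Agent/Helper679_PU/Defs.lean`: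
`BS` is the Baire space, `CS` is the Cantor space,
`LSig n` is the lightface class `Σ¹ₙ` of subsets of the Baire space (`LSig 0` is `Σ⁰₁`),
`Sig n` is the boldface class `Σ¹ₙ` (`Sig 0` are the open sets),
`LPiUnif k` says that lightface `Π¹ₖ` has the uniformization property,
`bm` is the product measure on the Baire space giving mass `2^{-(n+1)}` to `n`,
`clo B c` is the closed set coded by `c`, relative to the basis `B`.
-/

namespace Pool.Agent.Results.MP_7f0c28_lc.Covering

open Set MeasureTheory TopologicalSpace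
open Pool.Agent.Helper679_PU

/-- Let `N ≥ 1`. Assume that lightface `Π¹_{2N-1}` has the uniformization property, that any two
disjoint boldface `Σ¹_{2N+1}` sets can be separated by a Lebesgue measurable set, and that all
boldface `Σ¹_{2N}` sets have the Baire property. Then for every hereditary family `𝓕` of closed
subsets of a Polish space with a boldface `Δ¹_{2N}` set of codes, every boldface `Σ¹_{2N}` set is
covered by countably many members of `𝓕`, or has an analytic subset which is not covered by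
countably many members of `𝓕`. -/
theorem result (N : ℕ) (hN : 1 ≤ N) (hU : LPiUnif (2 * N - 1))
    (hLM : ∀ A A' : Set BS, Sig (2 * N + 1) BS A → Sig (2 * N + 1) BS A' → Disjoint A A' →
      ∃ M : Set BS, NullMeasurableSet M bm ∧ A ⊆ M ∧ Disjoint M A')
    (hBP : ∀ A : Set BS, Sig (2 * N) BS A → ∃ U : Set BS, IsOpen U ∧ IsMeagre (symmDiff A U))
    {Z : Type} [TopologicalSpace Z] [PolishSpace Z] (B : ℕ → Set Z)
    (hB : IsTopologicalBasis (range B)) (𝓕 : Set (Set Z))
    (hcl : ∀ D ∈ 𝓕, IsClosed D) (her : ∀ D ∈ 𝓕, ∀ D' ⊆ D, IsClosed D' → D' ∈ 𝓕)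
    (hF1 : Sig (2 * N) CS {c | clo B c ∈ 𝓕}) (hF2 : Sig (2 * N) CS {c | clo B c ∈ 𝓕}ᶜ)
    (A : Set Z) (hA : Sig (2 * N) Z A) :
    (∃ 𝓒 ⊆ 𝓕, 𝓒.Countable ∧ A ⊆ ⋃₀ 𝓒) ∨
    ∃ D ⊆ A, AnalyticSet D ∧ ¬ ∃ 𝓒 ⊆ 𝓕, 𝓒.Countable ∧ D ⊆ ⋃₀ 𝓒 := by
  obtain ⟨k, rfl⟩ : ∃ k, N = k + 1 := ⟨N - 1, by omega⟩
  have e1 : 2 * (k + 1) - 1 = 2 * k + 1 := by omega
  have e2 : 2 * (k + 1) + 1 = (2 * k + 1) + 2 := by omega
  have e3 : 2 * (k + 1) = (2 * k + 1) + 1 := by omega
  rw [e1] at hU
  rw [e2] at hLM
  rw [e3] at hF1 hF2 hA hBP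
  have S : Setup (2 * k + 1) := ⟨hU.bold, hLM⟩
  have C : CSetup (2 * k + 1) := ⟨hU.bold, fun A h1 => baire_of_symmDiff (hBP A h1)⟩
  exact covering (by omega) S C hB hA hcl her hF1 hF2

end Pool.Agent.Results.MP_7f0c28_lc.Covering
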