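import Mathlib
import Pool.Agent.Helper679_PU.Omega

/-!
MP_7f0c28_lc: `ω₁` is inaccessible by `Σ¹_{2N}` sequences. The hypotheses follow at once from the
hypotheses of the question for `N`.

Definitions used in the statement, all in `Pool/Agent/Helper679_PU/Defs.lean`:
`BS` is the Baire space, `CS` is the Cantor space,
`LSig n` is the lightface class `Σ¹ₙ` of subsets of the Baire space (`LSig 0` is `Σ⁰₁`),
`Sig n` is the boldface class `Σ¹ₙ` (`Sig 0` are the open sets),
`LPiUnif k` says that lightface `Π¹ₖ` has the uniformization property,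
`bm` is the product measure on the Baire space giving mass `2^{-(n+1)}` to `n`,
`RW w` is the relation on the natural numbers coded by the real `w`, and `rk w n` is the rank of `n`
in this relation, if the relation is wellfounded.
-/

namespace Pool.Agent.Results.MP_7f0c28_lc.OmegaSeq

open Set MeasureTheory
open scoped Ordinal
open Pool.Agent.Helper679_PU

/-- Let `N ≥ 1`. Assume that lightface `Π¹_{2N-1}` has the uniformization property and that any two
disjoint boldface `Σ¹_{2N+1}` sets can be separated by a Lebesgue measurable set. Let `Y α`,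
`α < ω₁`, be nonempty countable sets of reals such that the set of pairs `(w, e)`, with `w` a code
of a countable ordinal `α` and `e` an enumeration of `Y α`, is boldface `Σ¹_{2N}`. Then the union of
the sets `Y α` is countable. -/
theorem result (N : ℕ) (hN : 1 ≤ N) (hU : LPiUnif (2 * N - 1))
    (hLM : ∀ A A' : Set BS, Sig (2 * N + 1) BS A → Sig (2 * N + 1) BS A' → Disjoint A A' →
      ∃ M : Set BS, NullMeasurableSet M bm ∧ A ⊆ M ∧ Disjoint M A')
    (Y : Ordinal.{0} → Set CS)
    (hY : ∀ α < ω_ 1, (Y α).Countable ∧ (Y α).Nonempty)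
    (hsig : Sig (2 * N) (CS × (ℕ → CS))
      {q | WellFounded (RW q.1) ∧ range q.2 = Y (rk q.1 0)}) :
    (⋃ α, ⋃ (_ : α < ω_ 1), Y α).Countable := by
  obtain ⟨k, rfl⟩ : ∃ k, N = k + 1 := ⟨N - 1, by omega⟩
  have e1 : 2 * (k + 1) - 1 = 2 * k + 1 := by omega
  have e2 : 2 * (k + 1) + 1 = (2 * k + 1) + 2 := by omega
  have e3 : 2 * (k + 1) = (2 * k + 1) + 1 := by omega
  rw [e1] at hU
  rw [e2] at hLM
  rw [e3] at hsig
  have S : Setup (2 * k + 1) := ⟨hU.bold, hLM⟩
  let Q : Seq1 (2 * k + 1) := ⟨Y, fun α h => (hY α h).1, fun α h => (hY α h).2, hsig⟩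
  exact Q.countable (by omega) S

end Pool.Agent.Results.MP_7f0c28_lc.OmegaSeq
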